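import Mathlib
import Pool.Agent.H923R2.FP.Stubs

/-! SDF: Schwinger-Dyson equations from freeness -/

set_option autoImplicit false

noncomputable section

namespace Pool.Agent.H923R2.FP.T_SDF

open Pool.Agent.H923R2.FP
open MulOpposite

/-- bilinear forms as a bimodule -/
def BM (A : Type) [Ring A] [Algebra ℂ A] : Type := A →ₗ[ℂ] A →ₗ[ℂ] ℂ

section

variable {A : Type} [Ring A] [Algebra ℂ A]

instance : AddCommGroup (BM A) := inferInstanceAs (AddCommGroup (A →ₗ[ℂ] A →ₗ[ℂ] ℂ))
instance : Module ℂ (BM A) := inferInstanceAs (Module ℂ (A →ₗ[ℂ] A →ₗ[ℂ] ℂ))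

/-- value -/
def BM.ap (D : BM A) (α β : A) : ℂ := (show A →ₗ[ℂ] A →ₗ[ℂ] ℂ from D) α β

theorem BM.ext {D E : BM A} (h : ∀ α β, D.ap α β = E.ap α β) : D = E :=
  LinearMap.ext₂ h

@[simp] theorem BM.ap_add (D E : BM A) (α β : A) : (D + E).ap α β = D.ap α β + E.ap α β := rfl
@[simp] theorem BM.ap_zero (α β : A) : (0 : BM A).ap α β = 0 := rfl
@[simp] theorem BM.ap_smul (c : ℂ) (D : BM A) (α β : A) : (c • D).ap α β = c * D.ap α β := rfl

theorem BM.add_l (D : BM A) (α α' β : A) : D.ap (α + α') β = D.ap α β + D.ap α' β := by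
  unfold BM.ap
  rw [map_add]; rfl
theorem BM.add_r (D : BM A) (α β β' : A) : D.ap α (β + β') = D.ap α β + D.ap α β' := by
  unfold BM.ap
  rw [map_add]
theorem BM.smul_l (D : BM A) (c : ℂ) (α β : A) : D.ap (c • α) β = c * D.ap α β := by
  unfold BM.ap
  rw [map_smul]; rfl
theorem BM.smul_r (D : BM A) (c : ℂ) (α β : A) : D.ap α (c • β) = c * D.ap α β := by
  unfold BM.ap
  rw [map_smul]; rfl
theorem BM.zero_l (D : BM A) (β : A) : D.ap 0 β = 0 := by
  unfold BM.ap
  rw [map_zero]; rfl
theorem BM.zero_r (D : BM A) (α : A) : D.ap α 0 = 0 := by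
  unfold BM.ap
  rw [map_zero]

/-- left action -/
instance : Module A (BM A) where
  smul a D := LinearMap.mk₂ ℂ (fun α β => D.ap (α * a) β)
    (fun x y z => by rw [add_mul, BM.add_l]) (fun c x y => by rw [smul_mul_assoc, BM.smul_l]; rfl)
    (fun x y z => by rw [BM.add_r]) (fun c x y => by rw [BM.smul_r]; rfl)
  one_smul D := BM.ext fun α β => by
    show D.ap (α * 1) β = _
    rw [mul_one]
  mul_smul a b D := BM.ext fun α β => by
    show D.ap (α * (a * b)) β = D.ap ((α * a) * b) β
    rw [mul_assoc]
  smul_zero a := BM.ext fun α β => rfl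
  smul_add a D E := BM.ext fun α β => rfl
  add_smul a b D := BM.ext fun α β => by
    show D.ap (α * (a + b)) β = D.ap (α * a) β + D.ap (α * b) β
    rw [mul_add, BM.add_l]
  zero_smul D := BM.ext fun α β => by
    show D.ap (α * 0) β = 0
    rw [mul_zero, BM.zero_l]

@[simp] theorem BM.ap_left (a : A) (D : BM A) (α β : A) : (a • D).ap α β = D.ap (α * a) β := rfl

/-- right action -/
instance : Module Aᵐᵒᵖ (BM A) where
  smul a D := LinearMap.mk₂ ℂ (fun α β => D.ap α (unop a * β))
    (fun x y z => by rw [BM.add_l]) (fun c x y => by rw [BM.smul_l]; rfl)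
    (fun x y z => by rw [mul_add, BM.add_r]) (fun c x y => by rw [mul_smul_comm, BM.smul_r]; rfl)
  one_smul D := BM.ext fun α β => by
    show D.ap α (1 * β) = _
    rw [one_mul]
  mul_smul a b D := BM.ext fun α β => by
    show D.ap α (unop (a * b) * β) = D.ap α (unop b * (unop a * β))
    rw [unop_mul, mul_assoc]
  smul_zero a := BM.ext fun α β => rfl
  smul_add a D E := BM.ext fun α β => rfl
  add_smul a b D := BM.ext fun α β => by
    show D.ap α (unop (a + b) * β) = D.ap α (unop a * β) + D.ap α (unop b * β)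
    rw [unop_add, add_mul, BM.add_r]
  zero_smul D := BM.ext fun α β => by
    show D.ap α (unop 0 * β) = 0
    rw [unop_zero, zero_mul, BM.zero_r]

@[simp] theorem BM.ap_right (a : Aᵐᵒᵖ) (D : BM A) (α β : A) :
    (a • D).ap α β = D.ap α (unop a * β) := rfl

instance : SMulCommClass A Aᵐᵒᵖ (BM A) where
  smul_comm _ _ _ := BM.ext fun _ _ => rfl

instance : IsScalarTower ℂ A (BM A) where
  smul_assoc c a D := BM.ext fun α β => by
    simp [BM.smul_l]

instance : IsScalarTower ℂ Aᵐᵒᵖ (BM A) where
  smul_assoc c a D := BM.ext fun α β => by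
    simp [BM.smul_r]

/-- the ring of pairs -/
abbrev TT (A : Type) [Ring A] [Algebra ℂ A] : Type := TrivSqZeroExt A (BM A)

example : Ring (TT A) := inferInstance
example : Algebra ℂ (TT A) := inferInstance

theorem snd_mul_ap (x y : TT A) (α β : A) :
    (x * y).snd.ap α β = y.snd.ap (α * x.fst) β + x.snd.ap α (y.fst * β) := by
  rw [TrivSqZeroExt.snd_mul]
  simp

/-- reduction to alternating centred words -/
theorem reduce {T : Type} [Ring T] [Algebra ℂ T] (X : Bool → Subalgebra ℂ T) (Λ t : T →ₗ[ℂ] ℂ)
    (H : ∀ w : List (Bool × T), (∀ z ∈ w, z.2 ∈ X z.1 ∧ t z.2 = 0) →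
      w.IsChain (fun x y => x.1 ≠ y.1) → Λ ((w.map Prod.snd).prod) = 0) (ht : t 1 = 1) :
    ∀ (n : ℕ) (w : List (Bool × T)), w.length ≤ n → (∀ z ∈ w, z.2 ∈ X z.1) →
      Λ ((w.map Prod.snd).prod) = 0 := by
  intro n
  induction n with
  | zero =>
    intro w hw _
    have : w = [] := List.length_eq_zero_iff.1 (Nat.le_zero.1 hw)
    subst this
    exact H [] (by simp) (by simp)
  | succ n ih =>
    have key : ∀ (w2 w1 : List (Bool × T)), w1.length + w2.length ≤ n + 1 →
        (∀ z ∈ w1, z.2 ∈ X z.1 ∧ t z.2 = 0) → w1.IsChain (fun x y => x.1 ≠ y.1) →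
        (∀ z ∈ w2, z.2 ∈ X z.1) → Λ (((w1 ++ w2).map Prod.snd).prod) = 0 := by
      intro w2
      induction w2 with
      | nil =>
        intro w1 _ h1 h2 _
        rw [List.append_nil]
        exact H w1 h1 h2
      | cons z w2 ih2 =>
        intro w1 hl h1 h2 h3
        have hz := h3 z (by simp)
        have hw2 : ∀ z ∈ w2, z.2 ∈ X z.1 := fun y hy => h3 y (by simp [hy])
        rw [List.length_cons] at hl
        by_cases hm : ∃ x ∈ w1.getLast?, x.1 = z.1
        · obtain ⟨x, hx, hxz⟩ := hm
          obtain ⟨w1', rfl⟩ : ∃ w1', w1 = w1' ++ [x] := by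
            rcases List.eq_nil_or_concat w1 with h | ⟨l, b, h⟩
            · subst h; simp at hx
            · subst h
              simp at hx
              subst hx
              exact ⟨l, by simp⟩
          have hxX := (h1 x (by simp)).1
          have e : (((w1' ++ [x] ++ z :: w2)).map Prod.snd).prod =
              (((w1' ++ (z.1, x.2 * z.2) :: w2)).map Prod.snd).prod := by
            simp [mul_assoc]
          rw [e]
          refine ih _ ?_ ?_
          · simp at hl ⊢; omega
          · intro y hy
            rw [List.mem_append, List.mem_cons] at hy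
            rcases hy with hy | rfl | hy
            · exact (h1 y (by simp [hy])).1
            · exact (X z.1).mul_mem (hxz ▸ hxX) hz
            · exact hw2 y hy
        · push Not at hm
          have e : (((w1 ++ z :: w2)).map Prod.snd).prod =
              (((w1 ++ [(z.1, z.2 - t z.2 • (1 : T))] ++ w2)).map Prod.snd).prod +
              t z.2 • ((w1 ++ w2).map Prod.snd).prod := by
            simp only [List.map_append, List.map_cons, List.prod_append, List.prod_cons,
              List.map_nil, List.prod_nil, mul_one, mul_sub, sub_mul, mul_smul_comm,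
              smul_mul_assoc, mul_assoc]
            abel
          rw [e, map_add, map_smul, ih (w1 ++ w2) (by simp; omega) (by
            intro y hy
            rw [List.mem_append] at hy
            rcases hy with hy | hy
            · exact (h1 y hy).1
            · exact hw2 y hy), smul_zero, add_zero]
          refine ih2 _ (by simp; omega) ?_ ?_ hw2
          · intro y hy
            rw [List.mem_append, List.mem_singleton] at hy
            rcases hy with hy | rfl
            · exact h1 y hy
            · refine ⟨(X z.1).sub_mem hz ((X z.1).smul_mem (X z.1).one_mem _), ?_⟩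
              rw [map_sub, map_smul, ht]
              simp
          · rw [List.isChain_append]
            refine ⟨h2, by simp, ?_⟩
            intro x hx y hy
            simp at hy
            subst hy
            exact hm x hx
    intro w hw h
    simpa using key w [] (by simpa using hw) (by simp) (by simp) h

end

section

variable {A : Type} [CStarAlgebra A] (τ : A →ₗ[ℂ] ℂ) (s : A)

/-- the form `τ ⊗ τ` -/
def Ds : BM A := LinearMap.mk₂ ℂ (fun α β => τ α * τ β)
  (fun x y z => by rw [map_add]; ring) (fun c x y => by rw [map_smul]; simp; ring)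
  (fun x y z => by rw [map_add]; ring) (fun c x y => by rw [map_smul]; simp; ring)

/-- the pair of `s` and its difference quotient -/
def sh : TT A := TrivSqZeroExt.inl s + TrivSqZeroExt.inr (Ds τ)

@[simp] theorem sh_fst : (sh τ s).fst = s := by simp [sh]
@[simp] theorem sh_snd (α β : A) : (sh τ s).snd.ap α β = τ α * τ β := by
  have : (sh τ s).snd = Ds τ := by simp [sh]
  rw [this]; rfl

/-- letters in the ring of pairs -/
def hat {Q R : Type} (π : Q → A) (ρ : R → A) : Lt Q R → TT A
  | .q x => TrivSqZeroExt.inl (π x)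
  | .r x => TrivSqZeroExt.inl (ρ x)
  | .s => sh τ s

theorem hat_fst {Q R : Type} (π : Q → A) (ρ : R → A) (z : Lt Q R) :
    (hat τ s π ρ z).fst = vl π ρ s z := by
  cases z <;> simp [hat, vl]

theorem hat_snd {Q R : Type} (π : Q → A) (ρ : R → A) (z : Lt Q R) (α β : A) :
    (hat τ s π ρ z).snd.ap α β = if z.isS then τ α * τ β else 0 := by
  cases z <;> simp [hat, Lt.isS]

theorem hat_prod_fst {Q R : Type} (π : Q → A) (ρ : R → A) (w : List (Lt Q R)) :
    ((w.map (hat τ s π ρ)).prod).fst = ev (vl π ρ s) w := by
  induction w with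
  | nil => simp [ev]
  | cons z w ih =>
    rw [List.map_cons, List.prod_cons, TrivSqZeroExt.fst_mul, ih, hat_fst]
    simp [ev]

theorem hat_prod_snd {Q R : Type} (π : Q → A) (ρ : R → A) (w l : List (Lt Q R)) (α β : A) :
    ((w.map (hat τ s π ρ)).prod).snd.ap (α * ev (vl π ρ s) l) β =
    ssum (fun l r => τ (α * ev (vl π ρ s) l) * τ (ev (vl π ρ s) r * β)) l w := by
  induction w generalizing l with
  | nil => simp [ssum]
  | cons z w ih =>
    rw [List.map_cons, List.prod_cons, snd_mul_ap, hat_fst, hat_snd, hat_prod_fst]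
    have e : α * ev (vl π ρ s) l * vl π ρ s z = α * ev (vl π ρ s) (l ++ [z]) := by
      simp [ev, mul_assoc]
    rw [e, ih (l ++ [z])]
    show _ = (if z.isS then _ else 0) + ssum _ (l ++ [z]) w
    rw [add_comm]

theorem Uc_comm {B : Type} [Ring B] (x : B) (m : ℕ) : x * Uc x m = Uc x m * x := by
  induction m using Nat.strong_induction_on with
  | _ m ih =>
    match m with
    | 0 => simp [Uc]
    | 1 => simp [Uc]
    | m + 2 =>
      simp only [Uc]
      rw [mul_sub, sub_mul, ih m (by omega), mul_assoc x, ih (m + 1) (by omega)]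

theorem Uc_succ {B : Type} [Ring B] (x : B) (m : ℕ) :
    x * Uc x (m + 1) = Uc x (m + 2) + Uc x m := by
  simp [Uc]

theorem Uc_fst (m : ℕ) : (Uc (sh τ s) m).fst = Uc s m := by
  induction m using Nat.strong_induction_on with
  | _ m ih =>
    match m with
    | 0 => simp [Uc]
    | 1 => simp [Uc]
    | m + 2 =>
      simp only [Uc]
      rw [TrivSqZeroExt.fst_sub, TrivSqZeroExt.fst_mul, ih m (by omega), ih (m + 1) (by omega),
        sh_fst]

theorem BM.ap_sub {B : Type} [Ring B] [Algebra ℂ B] (D E : BM B) (α β : B) :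
    (D - E).ap α β = D.ap α β - E.ap α β := rfl

theorem G_eq (h1 : τ 1 = 1) (hU : ∀ m : ℕ, m ≠ 0 → τ (Uc s m) = 0) (m : ℕ) : ∀ k : ℕ,
    (Uc (sh τ s) m).snd.ap (Uc s k) 1 = if m = k + 1 then 1 else 0 := by
  induction m using Nat.strong_induction_on with
  | _ m ih =>
    intro k
    match m with
    | 0 => simp [Uc]
    | 1 =>
      show (sh τ s).snd.ap (Uc s k) 1 = _
      rw [sh_snd, h1, mul_one]
      rcases k with _ | k
      · simpa [Uc] using h1
      · rw [hU _ (by omega), if_neg (by omega)]
    | m + 2 =>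
      show (sh τ s * Uc (sh τ s) (m + 1) - Uc (sh τ s) m).snd.ap (Uc s k) 1 = _
      rw [TrivSqZeroExt.snd_sub, BM.ap_sub, snd_mul_ap, sh_fst, sh_snd, Uc_fst, mul_one,
        hU (m + 1) (by omega), mul_zero, add_zero, ← Uc_comm, ih m (by omega)]
      rcases k with _ | k
      · have e : s * Uc s 0 = Uc s 1 := by simp [Uc]
        rw [e, ih (m + 1) (by omega)]
        by_cases hm : m = 1
        · subst hm; simp
        · rw [if_neg (by omega), if_neg (by omega), if_neg (by omega)]
          simp
      · rw [Uc_succ, BM.add_l, ih (m + 1) (by omega), ih (m + 1) (by omega)]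
        by_cases hm : m = k + 2
        · subst hm
          rw [if_pos (by omega), if_neg (by omega), if_pos (by omega), if_neg (by omega)]
          simp
        · rw [if_neg (by omega)]
          by_cases hm' : m = k
          · subst hm'
            rw [if_pos (by omega), if_neg (by omega), if_pos (by omega)]
            simp
          · rw [if_neg (by omega), if_neg (by omega), if_neg (by omega)]
            simp

/-- the functional -/
def Lam : TT A →ₗ[ℂ] ℂ where
  toFun x := τ (s * x.fst) - x.snd.ap 1 1
  map_add' x y := by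
    rw [TrivSqZeroExt.fst_add, TrivSqZeroExt.snd_add, mul_add, map_add, BM.ap_add]; ring
  map_smul' c x := by
    rw [TrivSqZeroExt.fst_smul, TrivSqZeroExt.snd_smul, mul_smul_comm, map_smul, BM.ap_smul]
    simp; ring

/-- the centring functional -/
def tt : TT A →ₗ[ℂ] ℂ where
  toFun x := τ x.fst
  map_add' x y := by
    rw [TrivSqZeroExt.fst_add, map_add]
  map_smul' c x := by
    rw [TrivSqZeroExt.fst_smul, map_smul]
    simp

theorem base (h1 : τ 1 = 1) (hU : ∀ m : ℕ, m ≠ 0 → τ (Uc s m) = 0) (x : TT A)
    (hx : x ∈ Algebra.adjoin ℂ {sh τ s}) : Lam τ s x = 0 := by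
  have hL : ∀ m, Lam τ s (Uc (sh τ s) m) = 0 := by
    intro m
    show τ (s * (Uc (sh τ s) m).fst) - (Uc (sh τ s) m).snd.ap 1 1 = 0
    have e := G_eq τ s h1 hU m 0
    have e0 : Uc s 0 = 1 := by simp [Uc]
    rw [e0] at e
    rw [e, Uc_fst]
    match m with
    | 0 =>
      have := hU 1 (by omega)
      simpa [Uc] using this
    | 1 =>
      rw [Uc_succ, map_add, hU 2 (by omega), e0, h1]
      simp
    | m + 2 =>
      rw [Uc_succ, map_add, hU _ (by omega), hU _ (by omega), if_neg (by omega)]
      simp
  set P : Submodule ℂ (TT A) := Submodule.span ℂ (Set.range (Uc (sh τ s))) with hP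
  have hPs : ∀ y ∈ P, sh τ s * y ∈ P := by
    intro y hy
    induction hy using Submodule.span_induction with
    | mem y hy =>
      obtain ⟨m, rfl⟩ := hy
      rcases m with _ | m
      · have : sh τ s * Uc (sh τ s) 0 = Uc (sh τ s) 1 := by simp [Uc]
        rw [this]
        exact Submodule.subset_span ⟨1, rfl⟩
      · rw [Uc_succ]
        exact P.add_mem (Submodule.subset_span ⟨_, rfl⟩) (Submodule.subset_span ⟨_, rfl⟩)
    | zero => rw [mul_zero]; exact P.zero_mem
    | add a b _ _ ha hb => rw [mul_add]; exact P.add_mem ha hb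
    | smul c a _ ha => rw [mul_smul_comm]; exact P.smul_mem c ha
  have hPx : ∀ y ∈ P, x * y ∈ P := by
    induction hx using Algebra.adjoin_induction with
    | mem z hz =>
      rw [Set.mem_singleton_iff] at hz
      subst hz
      exact hPs
    | algebraMap r =>
      intro y hy
      rw [← Algebra.smul_def]
      exact P.smul_mem r hy
    | add a b _ _ ha hb =>
      intro y hy
      rw [add_mul]; exact P.add_mem (ha y hy) (hb y hy)
    | mul a b _ _ ha hb =>
      intro y hy
      rw [mul_assoc]; exact ha _ (hb y hy)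
  have h1P : (1 : TT A) ∈ P := Submodule.subset_span ⟨0, by simp [Uc]⟩
  have hxP : x ∈ P := by simpa using hPx 1 h1P
  have hker : P ≤ LinearMap.ker (Lam τ s) := by
    rw [hP, Submodule.span_le]
    rintro _ ⟨m, rfl⟩
    exact hL m
  exact hker hxP

variable (S C : StarSubalgebra ℂ A)

/-- alternating centred words with a letter in `C`: the trace vanishes even after multiplication by
elements of `S` -/
theorem Z (h1 : τ 1 = 1) (hc : ∀ x y, τ (x * y) = τ (y * x))
    (hf : FreeFam τ (fun b : Bool => if b then S else C)) :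
    ∀ (n : ℕ) (w : List (Bool × A)), w.length ≤ n →
    (∀ z ∈ w, z.2 ∈ (if z.1 then S else C) ∧ τ z.2 = 0) →
    w.IsChain (fun x y => x.1 ≠ y.1) → (∃ z ∈ w, z.1 = false) → ∀ x ∈ S, ∀ y ∈ S,
    τ (x * (w.map Prod.snd).prod * y) = 0 := by
  intro n
  induction n with
  | zero =>
    intro w hw _ _ hz
    have : w = [] := List.length_eq_zero_iff.1 (Nat.le_zero.1 hw)
    subst this
    simp at hz
  | succ n ih =>
    intro w hw h2 h3 h4 x hx y hy
    rcases w with _ | ⟨z, w⟩
    · simp at h4
    rcases hz1 : z.1 with _ | _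
    · -- the head is in `C`
      rcases List.eq_nil_or_concat (z :: w) with h | ⟨l, b, h⟩
      · simp at h
      rcases hb1 : b.1 with _ | _
      · -- the last letter is in `C`
        have e : τ (x * ((z :: w).map Prod.snd).prod * y) =
            τ ((((true, y * x - τ (y * x) • (1 : A)) :: z :: w).map Prod.snd).prod) +
            τ (y * x) * τ (((z :: w).map Prod.snd).prod) := by
          have e2 : (((true, y * x - τ (y * x) • (1 : A)) :: z :: w).map Prod.snd).prod =
            y * x * ((z :: w).map Prod.snd).prod - τ (y * x) • ((z :: w).map Prod.snd).prod := by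
            rw [List.map_cons, List.prod_cons, sub_mul, smul_mul_assoc, one_mul]
          rw [e2, map_sub, map_smul, smul_eq_mul, sub_add_cancel, hc, ← mul_assoc]
        rw [e, hf _ (by simp) ?_ ?_, hf (z :: w) (by simp) h2 h3]
        · simp
        · intro q hq
          rw [List.mem_cons] at hq
          rcases hq with rfl | hq
          · refine ⟨?_, ?_⟩
            · exact S.sub_mem (S.mul_mem hy hx) (S.smul_mem S.one_mem _)
            · rw [map_sub, map_smul, h1]; simp
          · exact h2 q hq
        · rw [List.isChain_cons_cons]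
          exact ⟨by rw [hz1]; simp, h3⟩
      · -- the last letter is in `S`
        rw [h] at hw h2 h3 h4 ⊢
        rw [List.concat_eq_append] at hw h2 h3 h4 ⊢
        have e : x * ((l ++ [b]).map Prod.snd).prod * y = x * (l.map Prod.snd).prod * (b.2 * y) := by
          simp [mul_assoc]
        rw [e]
        have hbS : b.2 ∈ S := by
          have := (h2 b (by simp)).1
          rw [hb1] at this
          simpa using this
        refine ih l (by simp at hw; omega) (fun q hq => h2 q (by simp [hq]))
          (List.isChain_append.1 h3).1 ?_ x hx _ (S.mul_mem hbS hy)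
        obtain ⟨q, hq, hq1⟩ := h4
        rw [List.mem_append, List.mem_singleton] at hq
        rcases hq with hq | rfl
        · exact ⟨q, hq, hq1⟩
        · rw [hb1] at hq1; simp at hq1
    · have e : x * ((z :: w).map Prod.snd).prod * y = (x * z.2) * (w.map Prod.snd).prod * y := by
        simp [mul_assoc]
      rw [e]
      have hzS : z.2 ∈ S := by
        have := (h2 z (by simp)).1
        rw [hz1] at this
        simpa using this
      refine ih w (by simp at hw; omega) (fun q hq => h2 q (by simp [hq])) h3.tail ?_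
        _ (S.mul_mem hx hzS) y hy
      obtain ⟨q, hq, hq1⟩ := h4
      rw [List.mem_cons] at hq
      rcases hq with rfl | hq
      · rw [hz1] at hq1; simp at hq1
      · exact ⟨q, hq, hq1⟩

/-- the algebras in the ring of pairs -/
def XX : Bool → Subalgebra ℂ (TT A)
  | true => Algebra.adjoin ℂ {sh τ s}
  | false => C.toSubalgebra.map (TrivSqZeroExt.inlAlgHom ℂ A (BM A))

theorem XX_true_fst (hs : s ∈ S) (x : TT A) (hx : x ∈ XX τ s C true) : x.fst ∈ S := by
  have h : Algebra.adjoin ℂ {sh τ s} ≤ S.toSubalgebra.comap (TrivSqZeroExt.fstHom ℂ A (BM A)) := by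
    refine Algebra.adjoin_le ?_
    rintro _ rfl
    show (sh τ s).fst ∈ S
    rw [sh_fst]; exact hs
  exact h hx

theorem XX_false (x : TT A) (hx : x ∈ XX τ s C false) : x.fst ∈ C ∧ x.snd = 0 := by
  obtain ⟨c, hc, rfl⟩ := hx
  exact ⟨hc, rfl⟩

theorem K (hs : s ∈ S) (x : TT A) (hx : x ∈ XX τ s C true) : ∀ α β : A,
    ((∀ f ∈ S, τ (α * f) = 0) ∨ (∀ f ∈ S, τ (f * β) = 0)) → x.snd.ap α β = 0 := by
  have hx' : x ∈ Algebra.adjoin ℂ {sh τ s} := hx
  induction hx' using Algebra.adjoin_induction with
  | mem z hz =>
    rw [Set.mem_singleton_iff] at hz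
    subst hz
    intro α β h
    rw [sh_snd]
    rcases h with h | h
    · have := h 1 S.one_mem
      rw [mul_one] at this
      rw [this, zero_mul]
    · have := h 1 S.one_mem
      rw [one_mul] at this
      rw [this, mul_zero]
  | algebraMap r =>
    intro α β _
    have : (algebraMap ℂ (TT A) r).snd = 0 := by
      rw [Algebra.algebraMap_eq_smul_one]
      simp
    rw [this]; rfl
  | add a b ha hb iha ihb =>
    intro α β h
    rw [TrivSqZeroExt.snd_add, BM.ap_add, iha ha α β h, ihb hb α β h, add_zero]
  | mul a b ha hb iha ihb =>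
    intro α β h
    rw [snd_mul_ap]
    have haS := XX_true_fst τ s S C hs a ha
    have hbS := XX_true_fst τ s S C hs b hb
    rw [iha ha, ihb hb, add_zero]
    · rcases h with h | h
      · left
        intro f hf
        rw [mul_assoc]
        exact h _ (S.mul_mem haS hf)
      · right; exact h
    · rcases h with h | h
      · left; exact h
      · right
        intro f hf
        rw [← mul_assoc]
        exact h _ (S.mul_mem hf hbS)

end

theorem t_SDF : S_SDF := by
  intro A Q R _ _ _ _ _ _ _ τ π ρ s S C hτ hs hss hπ hρ hU hf w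
  have h1 := hτ.one
  have hc := hτ.comm
  have hfstprod : ∀ w : List (Bool × TT A), ((w.map Prod.snd).prod).fst =
      ((w.map fun z => (z.1, z.2.fst)).map Prod.snd).prod := by
    intro w
    induction w with
    | nil => simp
    | cons z w ih => simp only [List.map_cons, List.prod_cons, TrivSqZeroExt.fst_mul, ih]
  have hmem : ∀ w : List (Bool × TT A), (∀ z ∈ w, z.2 ∈ XX τ s C z.1 ∧ tt τ z.2 = 0) →
      ∀ z ∈ (w.map fun z => (z.1, z.2.fst)), z.2 ∈ (if z.1 then S else C) ∧ τ z.2 = 0 := by
    intro w hw z hz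
    rw [List.mem_map] at hz
    obtain ⟨q, hq, rfl⟩ := hz
    obtain ⟨hq1, hq2⟩ := hw q hq
    refine ⟨?_, hq2⟩
    rcases hb : q.1 with _ | _
    · rw [hb] at hq1
      simpa using (XX_false τ s C _ hq1).1
    · rw [hb] at hq1
      simpa using XX_true_fst τ s S C hs _ hq1
  have hchain : ∀ w : List (Bool × TT A), w.IsChain (fun x y => x.1 ≠ y.1) →
      (w.map fun z => (z.1, z.2.fst)).IsChain (fun x y => x.1 ≠ y.1) := by
    intro w hw
    rw [List.isChain_map]
    exact hw
  have hZ : ∀ w : List (Bool × TT A), (∀ z ∈ w, z.2 ∈ XX τ s C z.1 ∧ tt τ z.2 = 0) →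
      w.IsChain (fun x y => x.1 ≠ y.1) → (∃ z ∈ w, z.1 = false) → ∀ x ∈ S, ∀ y ∈ S,
      τ (x * ((w.map Prod.snd).prod).fst * y) = 0 := by
    intro w hw1 hw2 ⟨z, hz, hz1⟩ x hx y hy
    rw [hfstprod]
    exact Z τ S C h1 hc hf _ _ le_rfl (hmem w hw1) (hchain w hw2)
      ⟨_, List.mem_map_of_mem hz, hz1⟩ x hx y hy
  have hsnd : ∀ (w v : List (Bool × TT A)),
      (∀ z ∈ v ++ w, z.2 ∈ XX τ s C z.1 ∧ tt τ z.2 = 0) →
      (v ++ w).IsChain (fun x y => x.1 ≠ y.1) → (∃ z ∈ v ++ w, z.1 = false) →
      ((w.map Prod.snd).prod).snd.ap ((v.map Prod.snd).prod).fst 1 = 0 := by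
    intro w
    induction w with
    | nil => intro v _ _ _; simp
    | cons z w ih =>
      intro v hv1 hv2 hv3
      rw [List.map_cons, List.prod_cons, snd_mul_ap]
      have e : ((v.map Prod.snd).prod).fst * z.2.fst = (((v ++ [z]).map Prod.snd).prod).fst := by
        simp
      rw [e, ih (v ++ [z]) (by simpa using hv1) (by simpa using hv2) (by simpa using hv3), zero_add]
      have hz := (hv1 z (by simp)).1
      rcases hb : z.1 with _ | _
      · rw [hb] at hz
        rw [(XX_false τ s C _ hz).2]; rfl
      · rw [hb] at hz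
        refine K τ s S C hs _ hz _ _ ?_
        obtain ⟨q, hq, hq1⟩ := hv3
        rw [List.mem_append, List.mem_cons] at hq
        rw [List.isChain_append] at hv2
        rcases hq with hq | rfl | hq
        · left
          intro f hf
          have := hZ v (fun z hz => hv1 z (by simp [hz])) hv2.1 ⟨q, hq, hq1⟩ 1 S.one_mem f hf
          rwa [one_mul] at this
        · rw [hb] at hq1; simp at hq1
        · right
          intro f hf
          have := hZ w (fun z hz => hv1 z (by simp [hz])) hv2.2.1.tail ⟨q, hq, hq1⟩ f hf 1 S.one_mem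
          rwa [mul_assoc] at this
  have main := reduce (XX τ s C) (Lam τ s) (tt τ) (by
    intro w hw1 hw2
    by_cases hF : ∃ z ∈ w, z.1 = false
    · show τ (s * _) - _ = 0
      have e1 := hZ w hw1 hw2 hF s hs 1 S.one_mem
      rw [mul_one] at e1
      have e2 := hsnd w [] (by simpa using hw1) (by simpa using hw2) (by simpa using hF)
      have e3 : ((([] : List (Bool × TT A)).map Prod.snd).prod).fst = 1 := by simp
      rw [e3] at e2
      rw [e1, e2, sub_zero]
    · push Not at hF
      rcases w with _ | ⟨z, w⟩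
      · exact base τ s h1 hU _ (by simp)
      rcases w with _ | ⟨z', w⟩
      · have hz := (hw1 z (by simp)).1
        have hb : z.1 = true := by
          have := hF z (by simp)
          simpa using this
        rw [hb] at hz
        have hz' : z.2 ∈ Algebra.adjoin ℂ {sh τ s} := hz
        exact base τ s h1 hU _ (by simpa using hz')
      · rw [List.isChain_cons_cons] at hw2
        have a1 := hF z (by simp)
        have a2 := hF z' (by simp)
        have a3 := hw2.1
        revert a1 a2 a3
        cases z.1 <;> cases z'.1 <;> simp) (by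
    show τ (1 : TT A).fst = 1
    simpa using h1)
  -- the word
  set w' : List (Bool × TT A) := w.map fun z => (z.isS, hat τ s π ρ z) with hw'
  have hX : ∀ z ∈ w', z.2 ∈ XX τ s C z.1 := by
    intro z hz
    rw [hw', List.mem_map] at hz
    obtain ⟨y, _, rfl⟩ := hz
    cases y with
    | q x => exact ⟨π x, hπ x, rfl⟩
    | r x => exact ⟨ρ x, hρ x, rfl⟩
    | s => exact Algebra.subset_adjoin rfl
  have h := main w'.length w' le_rfl hX
  have e : (w'.map Prod.snd).prod = (w.map (hat τ s π ρ)).prod := by
    rw [hw', List.map_map]; rfl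
  rw [e] at h
  have h2 : τ (s * ((w.map (hat τ s π ρ)).prod).fst) -
    ((w.map (hat τ s π ρ)).prod).snd.ap 1 1 = 0 := h
  have h3 := hat_prod_snd τ s π ρ w [] 1 1
  rw [hat_prod_fst, sub_eq_zero] at h2
  rw [h2]
  have e4 : (1 : A) * ev (vl (fun x => π x) (fun x => ρ x) s) ([] : List (Lt Q R)) = 1 := by
    simp [ev]
  have h3' : ((w.map (hat τ s π ρ)).prod).snd.ap 1 1 =
    ssum (fun l r => τ (1 * ev (vl π ρ s) l) * τ (ev (vl π ρ s) r * 1)) [] w := by
    rw [← h3]
    congr 1
    exact e4.symm
  rw [h3']
  simp only [one_mul, mul_one]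

end Pool.Agent.H923R2.FP.T_SDF
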